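import Pool.Agent.W998.KG.Stm

set_option autoImplicit false

namespace Pool.Agent.W711.KG

open Pool.Agent.Results.MP_633d19_co.SmallDegree
open Pool.Agent.Results.MP_633d19_co.SmallDegree.MGraph
open Pool.Agent.W998.KG

theorem arith1 {r T μ g : ℕ} (hg : 4 ≤ g) (hr : g ≤ r) (hT : 1 ≤ T)
    (h : r * T + 2 ≤ 1 * μ) (hμ : 3 * μ ≤ (2 * g - 3) * T + 1) : False := by
  obtain ⟨g', rfl⟩ : ∃ g', g = g' + 4 := ⟨g - 4, by omega⟩
  have e : 2 * (g' + 4) - 3 = 2 * g' + 5 := by omega
  rw [e] at hμ
  have h1 : (g' + 4) * T ≤ r * T := Nat.mul_le_mul_right _ hr
  nlinarith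

theorem arith2 {r T μ g l : ℕ} (hg : 4 ≤ g) (hl : g ≤ l) (hT : 1 ≤ T) (hodd : l % 2 = 1)
    (hr : g + l / 2 ≤ r + 1)
    (h : r * T + 2 ≤ 2 * μ) (hμ : 3 * μ ≤ (2 * g - 3) * T + 1) : False := by
  obtain ⟨g', rfl⟩ : ∃ g', g = g' + 4 := ⟨g - 4, by omega⟩
  have e : 2 * (g' + 4) - 3 = 2 * g' + 5 := by omega
  rw [e] at hμ
  have h0 : 4 * g' + 10 ≤ 3 * r := by omega
  have h1 : (4 * g' + 10) * T ≤ (3 * r) * T := Nat.mul_le_mul_right _ h0
  nlinarith

theorem arith3 {r T μ g d : ℕ} (hg : 4 ≤ g) (hT : 1 ≤ T) (hd : 3 ≤ d)
    (hr : (d - 1) * (g - 2) + 1 ≤ r)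
    (h : r * T + 2 ≤ d * μ) (hμ : 3 * μ ≤ (2 * g - 3) * T + 1) : False := by
  obtain ⟨g', rfl⟩ : ∃ g', g = g' + 4 := ⟨g - 4, by omega⟩
  obtain ⟨d', rfl⟩ : ∃ d', d = d' + 3 := ⟨d - 3, by omega⟩
  have e : 2 * (g' + 4) - 3 = 2 * g' + 5 := by omega
  have e1 : d' + 3 - 1 = d' + 2 := by omega
  have e2 : g' + 4 - 2 = g' + 2 := by omega
  rw [e] at hμ
  rw [e1, e2] at hr
  have h1 : ((d' + 2) * (g' + 2) + 1) * T ≤ r * T := Nat.mul_le_mul_right _ hr
  have h2 : (d' + 3) * (3 * μ) ≤ (d' + 3) * ((2 * g' + 5) * T + 1) := Nat.mul_le_mul_left _ hμ
  have h3 : d' * 1 ≤ d' * T := Nat.mul_le_mul_left _ hT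
  have h4 : 0 ≤ d' * g' * T := Nat.zero_le _
  nlinarith

theorem main : PartLOL → PartCNT → PartGAP → PartGAQ → PartNTL := by
  intro hLOL hCNT hGAP hGAQ V E _ _ G k Δ T μ g hk hT hcol hdeg hmult hg hgir hμ
  have key : ∀ n : ℕ, ∀ {l r : ℕ} {y : ℕ → V} {f h : ℕ → E} {α β : Fin k}
      {c : E → Option (Fin k)}, 3 ≤ l → l % 2 = 1 → l ≤ r → Lol G l r y f h α β c →
      Nat.card V - r ≤ n → False := by
    intro n
    induction n with
    | zero =>
      intro l r y f h α β c h3 hodd hlr hL hn
      have hinj : Function.Injective (fun i : Fin (r + 1) => y i.1) := by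
        intro i j hij
        exact Fin.ext (hL.inj _ (by omega) _ (by omega) hij)
      have hc := Nat.card_le_card_of_injective _ hinj
      rw [Nat.card_eq_fintype_card, Fintype.card_fin] at hc
      omega
    | succ n ih =>
      intro l r y f h α β c h3 hodd hlr hL hn
      by_cases hend : ∀ e a, y r ∈ G.ends e → c e = some a → (∃ j < r, G.Miss c (y j) a) →
          ∃ i < r, G.ends e = s(y r, y i)
      · have hl1 : l ≤ r + 1 := by omega
        have hLL := hLOL hcol hdeg (by omega) h3 hodd hl1 hL
        obtain ⟨A, hA, hAc⟩ := hCNT hk hT hdeg hmult h3 hodd hl1 hL hLL hend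
        have hpath : ∀ i < r, ∃ e, G.ends e = s(y i, y (i + 1)) := by
          intro i hi
          by_cases h1 : l ≤ i + 1
          · exact ⟨h i, hL.ed i hi h1⟩
          · refine ⟨f i, ?_⟩
            have h2 := hL.st.ed i (by omega)
            have h4 : nx l i = i + 1 := by
              unfold nx
              rw [if_neg (by omega)]
            rwa [h4] at h2
        have hclose : ∃ e, G.ends e = s(y (l - 1), y 0) := by
          refine ⟨f (l - 1), ?_⟩
          have h2 := hL.st.ed (l - 1) (by omega)
          have h4 : nx l (l - 1) = 0 := by
            unfold nx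
            rw [if_pos (by omega)]
          rwa [h4] at h2
        have hcyc : G.HasCycle l := by
          refine ⟨y, hL.st.inj, fun i hi => ⟨f i, ?_⟩⟩
          rw [mod_eq_nx hi]
          exact hL.st.ed i hi
        have hgl : g ≤ l := hgir l h3 hcyc
        have hne : A.Nonempty := by
          rw [Finset.nonempty_iff_ne_empty]
          rintro rfl
          rw [Finset.card_empty] at hAc
          omega
        have hgap := hGAP (by omega) hgir hL.inj hpath A hA hne
        have hpos : 1 ≤ A.card := hne.card_pos
        rcases Nat.lt_or_ge A.card 3 with hlt | hge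
        · rcases (by omega : A.card = 1 ∨ A.card = 2) with h1 | h2
          · rw [h1] at hAc
            exact arith1 hg (by omega) hT hAc hμ
          · obtain ⟨i, hi, hir⟩ : ∃ i ∈ A, i + 1 < r := by
              by_contra hcon
              push Not at hcon
              have hsub : A ⊆ {r - 1} := by
                intro i hi
                have h5 := hcon i hi
                have h6 := (hA i hi).1
                rw [Finset.mem_singleton]
                omega
              have h7 := Finset.card_le_card hsub
              rw [Finset.card_singleton] at h7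
              omega
            have hq := hGAQ (by omega) hgir hL.inj hpath h3 hodd hlr hclose i hir (hA i hi).2
            rw [h2] at hAc
            exact arith2 hg hgl hT hodd hq hAc hμ
        · exact arith3 hg hT hge hgap hAc hμ
      · push Not at hend
        obtain ⟨e, a, he, hca, ⟨j, hj, hjm⟩, hne⟩ := hend
        obtain ⟨z, hz⟩ := Sym2.mem_iff_exists.mp he
        have hzr : z ≠ y r := by
          rintro rfl
          exact G.loopless e (by rw [hz]; simp)
        have hzi : ∀ i < r, z ≠ y i := by
          intro i hi hh
          rw [hh] at hz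
          exact hne i hi hz
        have hyold : ∀ i ≤ r, Function.update y (r + 1) z i = y i := fun i hi =>
          Function.update_of_ne (by omega) _ _
        have hynew : Function.update y (r + 1) z (r + 1) = z := Function.update_self _ _ _
        have hhold : ∀ i < r, Function.update h r e i = h i := fun i hi =>
          Function.update_of_ne (by omega) _ _
        have hhnew : Function.update h r e r = e := Function.update_self _ _ _
        refine ih (r := r + 1) (y := Function.update y (r + 1) z) (f := f)
          (h := Function.update h r e) (c := c) h3 hodd (by omega)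
          ⟨⟨hL.st.pp, ?_, ?_, hL.st.none_iff, ?_, ?_, hL.st.ne⟩, ?_, ?_, ?_⟩ (by omega)
        · intro i hi j hj hij
          rw [hyold i (by omega), hyold j (by omega)] at hij
          exact hL.st.inj i hi j hj hij
        · intro i hi
          have := nx_lt hi
          rw [hyold i (by omega), hyold _ (by omega)]
          exact hL.st.ed i hi
        · intro i hi
          rw [hyold i (by omega)]
          exact hL.st.ma i hi
        · intro i hi
          rw [hyold i (by omega)]
          exact hL.st.mb i hi
        · intro i hi j hj hij
          rcases Nat.lt_or_ge r i with h1 | h1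
          · have hi' : i = r + 1 := by omega
            subst hi'
            rcases Nat.lt_or_ge r j with h2 | h2
            · omega
            · rw [hynew, hyold j h2] at hij
              rcases Nat.lt_or_ge j r with h5 | h5
              · exact absurd hij (hzi j h5)
              · have : j = r := by omega
                rw [this] at hij
                exact absurd hij hzr
          · rcases Nat.lt_or_ge r j with h2 | h2
            · have hj' : j = r + 1 := by omega
              subst hj'
              rw [hynew, hyold i h1] at hij
              rcases Nat.lt_or_ge i r with h5 | h5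
              · exact absurd hij.symm (hzi i h5)
              · have : i = r := by omega
                rw [this] at hij
                exact absurd hij.symm hzr
            · rw [hyold i h1, hyold j h2] at hij
              exact hL.inj i h1 j h2 hij
        · intro i hi hli
          rcases Nat.lt_or_ge i r with h1 | h1
          · rw [hhold i h1, hyold i (by omega), hyold (i + 1) (by omega)]
            exact hL.ed i h1 hli
          · have : i = r := by omega
            subst this
            rw [hhnew, hyold i le_rfl, hynew]
            exact hz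
        · intro i hi hli
          rcases Nat.lt_or_ge i r with h1 | h1
          · obtain ⟨b, hb, j', hj', hjm'⟩ := hL.col i h1 hli
            refine ⟨b, ?_, j', hj', ?_⟩
            · rw [hhold i h1]
              exact hb
            · rw [hyold j' (by omega)]
              exact hjm'
          · have : i = r := by omega
            subst this
            refine ⟨a, ?_, j, hj, ?_⟩
            · rw [hhnew]
              exact hca
            · rw [hyold j (by omega)]
              exact hjm
  intro l r y f h α β c h3 hodd hlr hL
  exact key (Nat.card V - r) h3 hodd hlr hL le_rfl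

end Pool.Agent.W711.KG
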